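import Pool.Agent.helper69.DH.SpecR

set_option autoImplicit false

open Filter Topology MeasureTheory
open scoped commutatorElement

namespace Pool.Agent.helper90.DH

open Pool.Agent.helper64.D2

theorem rBSE_div (m : ℤ) (a b : ℕ) (h : a ≤ b) : m / 2 ^ (b + 1 - a) = m / 2 / 2 ^ (b - a) := by
  rw [show b + 1 - a = (b - a) + 1 by omega, pow_succ, mul_comm, Int.ediv_ediv_of_nonneg (by norm_num)]

theorem rBSE_dens (ell s : ℕ) (κ : ℤ) (A : ℕ → Finset ℤ) (h : ell ≤ s) :
    rcw ell (s + 1) κ (rRZ (Function.update A (s + 1) ∅) (s + 1)) ≤ 2 * rcw ell s κ (rRZ A s) := by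
  classical
  unfold rcw
  refine Finset.card_le_mul_card_image_of_maps_to (f := fun m : ℤ => m / 2) ?_ 2 ?_
  · intro m hm
    have hm' : m ∈ (rRZ (Function.update A (s + 1) ∅) (s + 1)).filter (fun m => m / 2 ^ (s + 1 - ell) = κ) := hm
    rw [Finset.mem_filter] at hm'
    obtain ⟨h1, h2⟩ := hm'
    unfold rRZ at h1
    rw [Finset.mem_filter] at h1
    obtain ⟨h3, t, ht, h4⟩ := h1
    show m / 2 ∈ (rRZ A s).filter (fun m => m / 2 ^ (s - ell) = κ)
    rw [Finset.mem_filter]
    constructor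
    · unfold rRZ
      rw [Finset.mem_filter]
      constructor
      · unfold rTg at h3 ⊢
        rw [Finset.mem_Ico] at h3 ⊢
        rw [pow_succ] at h3
        omega
      · have hts : t ≠ s + 1 := by
          intro e
          subst e
          rw [Function.update_self] at h4
          exact absurd h4 (Finset.notMem_empty _)
        rw [Function.update_of_ne hts] at h4
        refine ⟨t, by omega, ?_⟩
        rw [← rBSE_div m t s (by omega)]
        exact h4
    · rw [← rBSE_div m ell s h]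
      exact h2
  · intro b _
    have hsub : ((rRZ (Function.update A (s + 1) ∅) (s + 1)).filter (fun m => m / 2 ^ (s + 1 - ell) = κ)).filter (fun m : ℤ => m / 2 = b) ⊆
        ({2 * b, 2 * b + 1} : Finset ℤ) := by
      intro m hm
      rw [Finset.mem_filter] at hm
      have h2 := hm.2
      rw [Finset.mem_insert, Finset.mem_singleton]
      omega
    exact (Finset.card_le_card hsub).trans Finset.card_le_two

theorem rBSE_empty (ell s : ℕ) (κ : ℤ) (A : ℕ → Finset ℤ) (h : ∀ t < s, A t = ∅) :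
    rcw ell s κ (rRZ (Function.update A s ∅) s) = 0 := by
  classical
  unfold rcw
  rw [Finset.card_eq_zero, Finset.filter_eq_empty_iff]
  intro m hm
  exfalso
  unfold rRZ at hm
  rw [Finset.mem_filter] at hm
  obtain ⟨_, t, ht, h4⟩ := hm
  rcases Nat.lt_or_ge t s with h5 | h5
  · rw [Function.update_of_ne (by omega), h t h5] at h4
    exact absurd h4 (Finset.notMem_empty _)
  · have e : t = s := le_antisymm ht h5
    subst e
    rw [Function.update_self] at h4
    exact absurd h4 (Finset.notMem_empty _)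

theorem rBSE : rBSE_stmt := by
  intro P S hR D hS hok κ
  obtain ⟨⟨_, _, hl, _, hs, _, hd, _⟩, _⟩ := hR
  rcases Nat.lt_or_ge P.S1 S with h | h
  · obtain ⟨s, rfl⟩ : ∃ s, S = s + 1 := ⟨S - 1, by omega⟩
    have hell : P.ell ≤ s := by omega
    have h1 := ((hok s (by omega)).2 (by omega)).2.1 κ
    have h2 := rBSE_dens P.ell s κ D.H hell
    have h3 := rBSE_dens P.ell s κ D.K hell
    have e : (2 : ℝ) ^ (s + 1 - P.ell) = 2 * 2 ^ (s - P.ell) := by
      rw [show s + 1 - P.ell = (s - P.ell) + 1 by omega, pow_succ]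
      ring
    rw [e]
    have h2' : (rcw P.ell (s + 1) κ (rRZ (Function.update D.H (s + 1) ∅) (s + 1)) : ℝ) ≤ 2 * (rcw P.ell s κ (rRZ D.H s) : ℝ) := by
      exact_mod_cast h2
    have h3' : (rcw P.ell (s + 1) κ (rRZ (Function.update D.K (s + 1) ∅) (s + 1)) : ℝ) ≤ 2 * (rcw P.ell s κ (rRZ D.K s) : ℝ) := by
      exact_mod_cast h3
    constructor
    · calc (rcw P.ell (s + 1) κ (rRZ (Function.update D.H (s + 1) ∅) (s + 1)) : ℝ) ≤ 2 * (rcw P.ell s κ (rRZ D.H s) : ℝ) := h2'
        _ ≤ 2 * (2 * P.d1 * 2 ^ (s - P.ell)) := by linarith [h1.1]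
        _ = 2 * P.d1 * (2 * 2 ^ (s - P.ell)) := by ring
    · calc (rcw P.ell (s + 1) κ (rRZ (Function.update D.K (s + 1) ∅) (s + 1)) : ℝ) ≤ 2 * (rcw P.ell s κ (rRZ D.K s) : ℝ) := h3'
        _ ≤ 2 * (P.d1 * 2 ^ (s - P.ell)) := by linarith [h1.2]
        _ = P.d1 * (2 * 2 ^ (s - P.ell)) := by ring
  · have e : S = P.S1 := le_antisymm h hS
    have hH : ∀ t < S, D.H t = ∅ := fun t ht => ((hok t ht).1 (by omega)).1
    have hK : ∀ t < S, D.K t = ∅ := fun t ht => ((hok t ht).1 (by omega)).2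
    rw [rBSE_empty P.ell S κ D.H hH, rBSE_empty P.ell S κ D.K hK]
    constructor
    · push_cast
      positivity
    · push_cast
      positivity

end Pool.Agent.helper90.DH
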