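import Pool.Agent.helper69.DH.SpecR2

set_option autoImplicit false

open Filter Topology MeasureTheory
open scoped commutatorElement

namespace Pool.Agent.helper90.DH

open Pool.Agent.helper64.D2

theorem rWTB_crit (P : RQ) (D : RD) (s : ℕ) (k : ℤ) (h : ∃ t, t ≤ s ∧ k / 2 ^ (s - t) ∈ D.K t) :
    ∃ t, t ≤ s ∧ k / 2 ^ (s - t) ∈ D.K t ∧ ∀ i : ℕ, ((i ∈ D.G t (k / 2 ^ (s - t)) → rwt P D s i k = 1 / ((D.G t (k / 2 ^ (s - t))).card : ℝ)) ∧
      (i ∉ D.G t (k / 2 ^ (s - t)) → rwt P D s i k = 0)) := by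
  classical
  refine ⟨Nat.find h, (Nat.find_spec h).1, (Nat.find_spec h).2, ?_⟩
  intro i
  unfold rwt
  rw [dif_pos h]
  constructor
  · intro hi
    rw [if_pos]
    exact hi
  · intro hi
    rw [if_neg]
    exact hi

theorem rWTB_sg (P : RQ) (D : RD) (s i : ℕ) (k : ℤ) (h : ¬ ∃ t, t ≤ s ∧ k / 2 ^ (s - t) ∈ D.K t) :
    (k ∈ rSg s → rwt P D s i k = reta D.H s (rpt P s i k) / rNN P D.H s k) ∧ (k ∉ rSg s → rwt P D s i k = 1 / P.q) := by
  classical
  unfold rwt
  rw [dif_neg h]
  constructor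
  · intro hi
    rw [if_pos hi]
  · intro hi
    rw [if_neg hi]

theorem rWTB (hETA : rETA_stmt) (hNRM : rNRM_stmt) : rWTB_stmt := by
  classical
  intro P S hR D hok s k hs0 hsS
  have hq : 1 ≤ P.q := hR.1.1
  have hqR : (1 : ℝ) ≤ P.q := by exact_mod_cast hq
  have hq0 : (0 : ℝ) < P.q := by linarith
  by_cases h : ∃ t, t ≤ s ∧ k / 2 ^ (s - t) ∈ D.K t
  · obtain ⟨t, hts, htK, hw⟩ := rWTB_crit P D s k h
    have hGD := hok t (by omega)
    have hS1 : P.S1 ≤ t := by
      by_contra hlt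
      push Not at hlt
      have := (hGD.1 hlt).2
      rw [this] at htK
      exact absurd htK (Finset.notMem_empty _)
    obtain ⟨g1, g2, _⟩ := (hGD.2 hS1).2.2.1 _ htK
    obtain ⟨G, hG⟩ : ∃ G, G = D.G t (k / 2 ^ (s - t)) := ⟨_, rfl⟩
    rw [← hG] at g1 g2 hw
    have hc0 : (0 : ℝ) < (G.card : ℝ) := by
      have : 0 < G.card := by omega
      exact_mod_cast this
    have hc2 : (P.q : ℝ) ≤ 2 * (G.card : ℝ) := by exact_mod_cast g2
    have hval : ∀ i, rwt P D s i k = if i ∈ G then 1 / (G.card : ℝ) else 0 := by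
      intro i
      by_cases hi : i ∈ G
      · rw [if_pos hi, (hw i).1 hi]
      · rw [if_neg hi, (hw i).2 hi]
    constructor
    · rw [Finset.sum_congr rfl (fun i _ => hval i), Finset.sum_ite_mem, Finset.inter_eq_right.mpr g1, Finset.sum_const, nsmul_eq_mul]
      field_simp
    · intro i
      rw [hval i]
      split_ifs
      · refine ⟨by positivity, ?_⟩
        rw [div_le_div_iff₀ hc0 hq0]
        linarith
      · exact ⟨le_rfl, by positivity⟩
  · by_cases hk : k ∈ rSg s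
    · obtain ⟨n1, n2⟩ := hNRM P S hR D hok s k hs0 hsS hk (fun t ht hK => h ⟨t, ht, hK⟩)
      have hN0 : 0 < rNN P D.H s k := by linarith
      constructor
      · rw [Finset.sum_congr rfl (fun i _ => (rWTB_sg P D s i k h).1 hk), ← Finset.sum_div]
        exact div_self hN0.ne'
      · intro i
        rw [(rWTB_sg P D s i k h).1 hk]
        obtain ⟨⟨e1, e2, _⟩, _⟩ := hETA D.H s (rpt P s i k)
        refine ⟨div_nonneg e1 hN0.le, ?_⟩
        rw [div_le_div_iff₀ hN0 hq0]
        nlinarith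
    · constructor
      · rw [Finset.sum_congr rfl (fun i _ => (rWTB_sg P D s i k h).2 hk), Finset.sum_const, Finset.card_range, nsmul_eq_mul]
        field_simp
      · intro i
        rw [(rWTB_sg P D s i k h).2 hk]
        refine ⟨by positivity, ?_⟩
        gcongr
        norm_num

end Pool.Agent.helper90.DH
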